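import Pool.Agent.H16.GU.Targets3

/-!
# PRJ: the projection orthogonal to the first `s` rows
-/

set_option autoImplicit false

namespace Pool.Agent.H57.GU

open Pool.Agent.H34.GM Pool.Agent.H34.GZ Pool.Agent.H34.GU

lemma rowN_eq {m : ℕ} (v : Fin m → ℝ) : rowN v = ‖(WithLp.toLp 2 v : EuclideanSpace ℝ (Fin m))‖ := by
  unfold rowN
  rw [EuclideanSpace.norm_eq]
  simp [sq_abs]

lemma vb_sub {m : ℕ} (l z : Fin m → ℤ) (b : Mat m) : vb (l - z) b = vb l b - vb z b := by
  unfold vb
  rw [← Matrix.sub_vecMul]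
  congr 1
  funext i
  simp

/-- the span of the first rows -/
noncomputable def US {m : ℕ} (b : Mat m) (x : ZM m) (s : ℕ) :
    Submodule ℝ (EuclideanSpace ℝ (Fin m)) :=
  Submodule.span ℝ {u | ∃ j : Fin m, (j : ℕ) < s ∧ u = WithLp.toLp 2 (vb (x j) b)}

/-- the projection -/
noncomputable def PS {m : ℕ} (b : Mat m) (x : ZM m) (s : ℕ) :
    (Fin m → ℝ) →ₗ[ℝ] (Fin m → ℝ) :=
  (WithLp.linearEquiv 2 ℝ (Fin m → ℝ)).toLinearMap ∘ₗ
    ((US b x s)ᗮ.starProjection : EuclideanSpace ℝ (Fin m) →L[ℝ]
      EuclideanSpace ℝ (Fin m)).toLinearMap ∘ₗ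
    (WithLp.linearEquiv 2 ℝ (Fin m → ℝ)).symm.toLinearMap

lemma PS_apply {m : ℕ} (b : Mat m) (x : ZM m) (s : ℕ) (v : Fin m → ℝ) :
    PS b x s v = WithLp.ofLp ((US b x s)ᗮ.starProjection (WithLp.toLp 2 v)) := rfl

lemma rowN_PS {m : ℕ} (b : Mat m) (x : ZM m) (s : ℕ) (v : Fin m → ℝ) :
    rowN (PS b x s v) = ‖(US b x s)ᗮ.starProjection (WithLp.toLp 2 v)‖ := by
  rw [rowN_eq, PS_apply]

/-- the coordinates of an integer vector in the basis of the rows -/
noncomputable def cc {m : ℕ} (x : ZM m) (l : Fin m → ℤ) : Fin m → ℚ :=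
  Matrix.vecMul (fun i => ((l i : ℤ) : ℚ)) (x.map (Int.cast : ℤ → ℚ))⁻¹

lemma cc_mul {m : ℕ} {x : ZM m} (hx : x.det ≠ 0) (l : Fin m → ℤ) (i : Fin m) :
    ∑ j, cc x l j * (x j i : ℚ) = (l i : ℚ) := by
  have hd : (x.map (Int.cast : ℤ → ℚ)).det ≠ 0 := by
    have : (x.map (Int.cast : ℤ → ℚ)).det = ((x.det : ℤ) : ℚ) := by
      have := (Int.castRingHom ℚ).map_det x
      simpa [RingHom.mapMatrix_apply] using this.symm
    rw [this]
    exact_mod_cast hx
  have h1 : Matrix.vecMul (cc x l) (x.map (Int.cast : ℤ → ℚ)) = fun i => ((l i : ℤ) : ℚ) := by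
    unfold cc
    rw [Matrix.vecMul_vecMul, Matrix.nonsing_inv_mul _ (isUnit_iff_ne_zero.mpr hd),
      Matrix.vecMul_one]
  have h2 := congrFun h1 i
  rw [Matrix.vecMul, dotProduct] at h2
  simpa using h2

/-- the coordinates are unique, also over the reals -/
lemma cc_uniq {m : ℕ} {x : ZM m} (hx : x.det ≠ 0) (l : Fin m → ℤ) (t : Fin m → ℝ)
    (ht : ∀ i, ∑ j, t j * (x j i : ℝ) = (l i : ℝ)) (j : Fin m) : t j = (cc x l j : ℝ) := by
  have hd : (x.map (Int.cast : ℤ → ℝ)).det ≠ 0 := by
    have : (x.map (Int.cast : ℤ → ℝ)).det = ((x.det : ℤ) : ℝ) := by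
      have := (Int.castRingHom ℝ).map_det x
      simpa [RingHom.mapMatrix_apply] using this.symm
    rw [this]
    exact_mod_cast hx
  have hu : IsUnit (x.map (Int.cast : ℤ → ℝ)).det := isUnit_iff_ne_zero.mpr hd
  have h1 : Matrix.vecMul t (x.map (Int.cast : ℤ → ℝ)) =
      Matrix.vecMul (fun j => (cc x l j : ℝ)) (x.map (Int.cast : ℤ → ℝ)) := by
    funext i
    rw [Matrix.vecMul, Matrix.vecMul, dotProduct, dotProduct]
    simp only [Matrix.map_apply]
    rw [ht i]
    have := cc_mul hx l i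
    have h3 : ((∑ j, cc x l j * (x j i : ℚ) : ℚ) : ℝ) = ((l i : ℚ) : ℝ) := by rw [this]
    push_cast at h3
    exact h3.symm
  have h2 : t = fun j => (cc x l j : ℝ) := by
    have := congrArg (fun v => Matrix.vecMul v (x.map (Int.cast : ℤ → ℝ))⁻¹) h1
    simp only [Matrix.vecMul_vecMul, Matrix.mul_nonsing_inv _ hu, Matrix.vecMul_one] at this
    exact this
  exact congrFun h2 j

/-- elements of the span are combinations of the rows -/
lemma mem_US {m : ℕ} {b : Mat m} {x : ZM m} {s : ℕ} {u : EuclideanSpace ℝ (Fin m)}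
    (hu : u ∈ US b x s) : ∃ t : Fin m → ℝ, (∀ j : Fin m, s ≤ (j : ℕ) → t j = 0) ∧
      u = ∑ j, t j • (WithLp.toLp 2 (vb (x j) b) : EuclideanSpace ℝ (Fin m)) := by
  unfold US at hu
  induction hu using Submodule.span_induction with
  | mem u hu =>
    obtain ⟨j, hj, rfl⟩ := hu
    refine ⟨Pi.single j 1, fun i hi => ?_, ?_⟩
    · rw [Pi.single_apply, if_neg]
      rintro rfl
      omega
    · rw [Finset.sum_eq_single j]
      · simp
      · intro i _ hi
        simp [hi]
      · simp
  | zero => exact ⟨0, fun _ _ => rfl, by simp⟩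
  | add u v _ _ h1 h2 =>
    obtain ⟨t, ht, rfl⟩ := h1
    obtain ⟨r, hr, rfl⟩ := h2
    refine ⟨t + r, fun j hj => by simp [ht j hj, hr j hj], ?_⟩
    simp only [Pi.add_apply, add_smul, Finset.sum_add_distrib]
  | smul a u _ h1 =>
    obtain ⟨t, ht, rfl⟩ := h1
    refine ⟨a • t, fun j hj => by simp [ht j hj], ?_⟩
    simp only [Pi.smul_apply, smul_eq_mul, mul_smul, Finset.smul_sum]

lemma vb_comb {m : ℕ} (b : Mat m) (x : ZM m) (t : Fin m → ℝ) :
    ∑ j, t j • vb (x j) b = Matrix.vecMul (fun i => ∑ j, t j * (x j i : ℝ)) b := by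
  funext k
  simp only [Finset.sum_apply, Pi.smul_apply, smul_eq_mul, vb, Matrix.vecMul, dotProduct]
  simp only [Finset.mul_sum, Finset.sum_mul]
  rw [Finset.sum_comm]
  refine Finset.sum_congr rfl fun i _ => Finset.sum_congr rfl fun j _ => by ring

lemma toLp_sum {m : ℕ} (t : Fin m → ℝ) (w : Fin m → Fin m → ℝ) :
    ∑ j, t j • (WithLp.toLp 2 (w j) : EuclideanSpace ℝ (Fin m)) =
      WithLp.toLp 2 (∑ j, t j • w j) := by
  have h := map_sum (WithLp.linearEquiv 2 ℝ (Fin m → ℝ)).symm (fun j => t j • w j) Finset.univ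
  simp only [map_smul] at h
  exact h.symm

lemma mem_US_iff {m : ℕ} {b : Mat m} (hb : b.det ≠ 0) {x : ZM m} (hx : x.det ≠ 0) (s : ℕ)
    (l : Fin m → ℤ) :
    (WithLp.toLp 2 (vb l b) : EuclideanSpace ℝ (Fin m)) ∈ US b x s ↔ l ∈ Lx x s := by
  constructor
  · intro h
    obtain ⟨t, ht, h1⟩ := mem_US h
    rw [toLp_sum] at h1
    have h2 : vb l b = ∑ j, t j • vb (x j) b := congrArg WithLp.ofLp h1
    rw [vb_comb] at h2
    have hu : IsUnit b.det := isUnit_iff_ne_zero.mpr hb
    have h3 : (fun i => (l i : ℝ)) = fun i => ∑ j, t j * (x j i : ℝ) := by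
      have := congrArg (fun v => Matrix.vecMul v b⁻¹) h2
      simp only [vb, Matrix.vecMul_vecMul, Matrix.mul_nonsing_inv _ hu, Matrix.vecMul_one] at this
      exact this
    have h4 := cc_uniq hx l t fun i => (congrFun h3 i).symm
    unfold Lx
    rw [AddSubgroup.mem_comap]
    have h5 : ((Int.castAddHom ℚ).compLeft (Fin m)) l =
        ∑ j, cc x l j • (fun k => ((x j k : ℤ) : ℚ)) := by
      funext i
      simp only [Finset.sum_apply, Pi.smul_apply, smul_eq_mul]
      rw [cc_mul hx l i]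
      rfl
    rw [h5]
    change _ ∈ Submodule.span ℚ _
    refine Submodule.sum_mem _ fun j _ => ?_
    by_cases hj : (j : ℕ) < s
    · exact Submodule.smul_mem _ _ (Submodule.subset_span ⟨j, hj, rfl⟩)
    · have h6 : cc x l j = 0 := by
        have := h4 j
        rw [ht j (by omega)] at this
        exact_mod_cast this.symm
      rw [h6, zero_smul]
      exact Submodule.zero_mem _
  · intro h
    unfold Lx at h
    rw [AddSubgroup.mem_comap] at h
    change _ ∈ Submodule.span ℚ _ at h
    have key : ∀ w : Fin m → ℚ, w ∈ Submodule.span ℚ {w : Fin m → ℚ | ∃ j : Fin m, (j : ℕ) < s ∧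
        w = fun l => ((x j l : ℤ) : ℚ)} →
        (WithLp.toLp 2 (Matrix.vecMul (fun i => ((w i : ℚ) : ℝ)) b) :
          EuclideanSpace ℝ (Fin m)) ∈ US b x s := by
      intro w hw
      induction hw using Submodule.span_induction with
      | mem w hw =>
        obtain ⟨j, hj, rfl⟩ := hw
        refine Submodule.subset_span ⟨j, hj, ?_⟩
        unfold vb
        simp
      | zero =>
        have : (WithLp.toLp 2 (Matrix.vecMul (fun i => (((0 : Fin m → ℚ) i : ℚ) : ℝ)) b) :
            EuclideanSpace ℝ (Fin m)) = 0 := by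
          have h0 : (fun i => (((0 : Fin m → ℚ) i : ℚ) : ℝ)) = (0 : Fin m → ℝ) := by
            funext i
            simp
          rw [h0, Matrix.zero_vecMul]
          rfl
        rw [this]
        exact Submodule.zero_mem _
      | add u v _ _ h1 h2 =>
        have h3 := Submodule.add_mem _ h1 h2
        have h4 : (WithLp.toLp 2 (Matrix.vecMul (fun i => (((u + v) i : ℚ) : ℝ)) b) :
            EuclideanSpace ℝ (Fin m)) =
            WithLp.toLp 2 (Matrix.vecMul (fun i => ((u i : ℚ) : ℝ)) b) +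
            WithLp.toLp 2 (Matrix.vecMul (fun i => ((v i : ℚ) : ℝ)) b) := by
          have h0 : (fun i => (((u + v) i : ℚ) : ℝ)) =
              (fun i => ((u i : ℚ) : ℝ)) + fun i => ((v i : ℚ) : ℝ) := by
            funext i
            simp
          rw [h0, Matrix.add_vecMul]
          rfl
        rw [h4]
        exact h3
      | smul a u _ h1 =>
        have h3 := Submodule.smul_mem _ (a : ℝ) h1
        have h4 : (WithLp.toLp 2 (Matrix.vecMul (fun i => (((a • u) i : ℚ) : ℝ)) b) :
            EuclideanSpace ℝ (Fin m)) =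
            (a : ℝ) • WithLp.toLp 2 (Matrix.vecMul (fun i => ((u i : ℚ) : ℝ)) b) := by
          have h0 : (fun i => (((a • u) i : ℚ) : ℝ)) = (a : ℝ) • fun i => ((u i : ℚ) : ℝ) := by
            funext i
            simp
          rw [h0, Matrix.smul_vecMul]
          rfl
        rw [h4]
        exact h3
    have h7 := key _ h
    have h8 : Matrix.vecMul (fun i => ((((Int.castAddHom ℚ).compLeft (Fin m)) l i : ℚ) : ℝ)) b =
        vb l b := by
      unfold vb
      congr 1
    rw [h8] at h7
    exact h7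

theorem pf_PRJ : T_PRJ := by
  intro m hm b x hb hx s R hR hrow
  have hdec : ∀ v : EuclideanSpace ℝ (Fin m),
      (US b x s).starProjection v + (US b x s)ᗮ.starProjection v = v := fun v =>
    (US b x s).starProjection_add_starProjection_orthogonal v
  refine ⟨PS b x s, fun v => ?_, fun l => ?_, fun l => ?_⟩
  · rw [rowN_PS, rowN_eq]
    exact Submodule.norm_starProjection_apply_le _ _
  · rw [← mem_US_iff hb hx s l, PS_apply]
    constructor
    · intro h
      have h1 : (US b x s)ᗮ.starProjection (WithLp.toLp 2 (vb l b)) = 0 := by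
        have := congrArg (WithLp.toLp 2) h
        exact this
      have h2 := hdec (WithLp.toLp 2 (vb l b))
      rw [h1, add_zero] at h2
      rw [← h2]
      exact Submodule.starProjection_apply_mem _ _
    · intro h
      have h1 := Submodule.starProjection_eq_self_iff.mpr h
      have h2 := hdec (WithLp.toLp 2 (vb l b))
      rw [h1] at h2
      have h3 : (US b x s)ᗮ.starProjection (WithLp.toLp 2 (vb l b)) = 0 := by
        exact add_eq_left.mp h2
      rw [h3]
      rfl
  · have h1 : (US b x s).starProjection (WithLp.toLp 2 (vb l b)) ∈ US b x s :=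
      Submodule.starProjection_apply_mem _ _
    obtain ⟨t, ht, h2⟩ := mem_US h1
    set z : Fin m → ℤ := ∑ j, ⌊t j⌋ • x j with hz
    refine ⟨z, ?_, ?_⟩
    · rw [hz]
      refine AddSubgroup.sum_mem _ fun j _ => ?_
      by_cases hj : (j : ℕ) < s
      · refine AddSubgroup.zsmul_mem _ ?_ _
        unfold Lx
        rw [AddSubgroup.mem_comap]
        change _ ∈ Submodule.span ℚ _
        exact Submodule.subset_span ⟨j, hj, rfl⟩
      · rw [ht j (by omega)]
        simp
    · have h3 : vb z b = ∑ j, (⌊t j⌋ : ℝ) • vb (x j) b := by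
        rw [vb_comb]
        unfold vb
        congr 1
        funext i
        rw [hz]
        simp [Finset.sum_apply]
      have h4 : (WithLp.toLp 2 (vb (l - z) b) : EuclideanSpace ℝ (Fin m)) =
          (US b x s)ᗮ.starProjection (WithLp.toLp 2 (vb l b)) +
            ∑ j, (t j - ⌊t j⌋) • (WithLp.toLp 2 (vb (x j) b) : EuclideanSpace ℝ (Fin m)) := by
        rw [vb_sub, h3]
        have h5 : (WithLp.toLp 2 (vb l b - ∑ j, (⌊t j⌋ : ℝ) • vb (x j) b) :
            EuclideanSpace ℝ (Fin m)) = WithLp.toLp 2 (vb l b) -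
              WithLp.toLp 2 (∑ j, (⌊t j⌋ : ℝ) • vb (x j) b) := rfl
        rw [h5, ← toLp_sum]
        have h6 := hdec (WithLp.toLp 2 (vb l b))
        rw [h2] at h6
        have h7 : ∑ j, (t j - ⌊t j⌋) • (WithLp.toLp 2 (vb (x j) b) :
            EuclideanSpace ℝ (Fin m)) =
            ∑ j, t j • (WithLp.toLp 2 (vb (x j) b) : EuclideanSpace ℝ (Fin m)) -
            ∑ j, (⌊t j⌋ : ℝ) • (WithLp.toLp 2 (vb (x j) b) : EuclideanSpace ℝ (Fin m)) := by
          rw [← Finset.sum_sub_distrib]
          refine Finset.sum_congr rfl fun j _ => sub_smul _ _ _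
        rw [h7]
        set w := (US b x s)ᗮ.starProjection (WithLp.toLp 2 (vb l b)) with hw
        rw [← h6]
        abel
      rw [rowN_PS, rowN_eq, h4]
      refine (norm_add_le _ _).trans (add_le_add le_rfl ?_)
      refine (norm_sum_le _ _).trans ?_
      have h8 : ∀ j ∈ Finset.univ, ‖(t j - ⌊t j⌋) • (WithLp.toLp 2 (vb (x j) b) :
          EuclideanSpace ℝ (Fin m))‖ ≤ R := by
        intro j _
        by_cases hj : (j : ℕ) < s
        · rw [norm_smul, ← rowN_eq]
          have h9 : ‖t j - ⌊t j⌋‖ ≤ 1 := by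
            rw [Real.norm_eq_abs, abs_le]
            constructor
            · linarith [Int.floor_le (t j)]
            · linarith [Int.lt_floor_add_one (t j)]
          have h10 := hrow j hj
          have h11 : 0 ≤ rowN (vb (x j) b) := by
            rw [rowN_eq]
            exact norm_nonneg _
          calc ‖t j - ⌊t j⌋‖ * rowN (vb (x j) b) ≤ 1 * R :=
                mul_le_mul h9 h10 h11 zero_le_one
            _ = R := one_mul R
        · rw [ht j (by omega)]
          simp [hR.le]
      refine (Finset.sum_le_sum h8).trans ?_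
      rw [Finset.sum_const, Finset.card_univ, Fintype.card_fin, nsmul_eq_mul]

end Pool.Agent.H57.GU
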