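import Pool.Agent.H76.GU.Targets

/-!
Row EGC of the board gu: cusp forms are eigenfunctions of the operators with decaying kernels.
-/

namespace Pool.Agent.H57.GU

open MeasureTheory Pool.Agent.H34.GM Pool.Agent.H34.GZ Pool.Agent.H34.GU Pool.Agent.H76.GU

lemma egc_cmt {m : ℕ} : Continuous fun z : V m => mt z := by
  refine continuous_matrix fun i j => ?_
  show Continuous fun z : V m => z i j
  fun_prop

lemma egc_det {m : ℕ} : Continuous fun z : V m => (mt z).det := egc_cmt.matrix_det

lemma egc_kk {m : ℕ} (r : ℝ) (α g : Mat m) :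
    Measurable fun z : V m => (fun i j => kk r (mt z) α g i j : V m) := by
  refine measurable_pi_lambda _ fun i => measurable_pi_lambda _ fun j => ?_
  have hdet : Measurable fun z : V m => (mt z).det := egc_det.measurable
  have haN : Measurable fun z : V m => aN (mt z) := by
    unfold aN
    have h2 : Measurable fun z : V m => |(mt z).det| := (continuous_abs.comp egc_det).measurable
    exact h2.pow_const _
  have hinv : ∀ i j : Fin m, Measurable fun z : V m => (mt z)⁻¹ i j := by
    intro i j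
    have h1 : (fun z : V m => (mt z)⁻¹ i j) = fun z => ((mt z).det)⁻¹ * (mt z).adjugate i j := by
      funext z
      rw [Matrix.inv_def, Ring.inverse_eq_inv', Matrix.smul_apply, smul_eq_mul]
    rw [h1]
    have h2 : Continuous fun z : V m => (mt z).adjugate i j :=
      (egc_cmt.matrix_adjugate).matrix_elem i j
    exact hdet.inv.mul h2.measurable
  have h3 : (fun z : V m => kk r (mt z) α g i j) = fun z : V m =>
      (r⁻¹ * aN (mt z) / aN g) * ∑ l, (∑ l', (mt z)⁻¹ i l' * α l' l) * g l j := by
    funext z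
    unfold kk
    rw [Matrix.smul_apply, smul_eq_mul, Matrix.mul_apply]
    simp only [Matrix.mul_apply]
  rw [h3]
  refine Measurable.mul ((measurable_const.mul haN).div_const _) ?_
  refine Finset.measurable_fun_sum _ fun l _ => Measurable.mul ?_ measurable_const
  exact Finset.measurable_fun_sum _ fun l' _ => (hinv i l').mul measurable_const

lemma egc_ne {m : ℕ} (hm1 : 1 ≤ m) {z : Mat m} (h : 1 ≤ aN z) : z.det ≠ 0 := by
  intro h0
  unfold aN at h
  have hm : (1 / (m : ℝ)) ≠ 0 := by positivity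
  rw [h0, abs_zero, Real.zero_rpow hm] at h
  linarith

theorem pf_EGC (hN : T_EGN) (hS : T_SGV) (hAC : T_AC1) : T_EGC := by
  classical
  intro m N _ T D hsys F lam mu hF Ψ hΨ g r x hg hr
  have : Countable (ZM m) := inferInstanceAs (Countable (Fin m → Fin m → ℤ))
  have hm1 := hsys.one_le
  have hD := hsys.dom
  have hab := hAC m N T D hsys F lam mu hF Ψ hΨ g r x hg hr
  have hsg := hS m N T D hsys F lam mu hF Ψ hΨ g r x hg hr
  have hns := hN m N T D hsys F lam mu hF.toEigU Ψ hΨ g r x hg hr
  set f : ZM m → V m → ℂ := fun α z => Ψ (kk r (mt z) (cR α) g) * F (mt z) (ac N α x) with hf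
  have hopen : MeasurableSet {z : V m | (mt z).det ≠ 0} :=
    (isOpen_ne_fun egc_det continuous_const).measurableSet
  have hsub : D ⊆ {z : V m | (mt z).det ≠ 0} := fun z hz => egc_ne hm1 (hD.shell z hz).1
  have hmeas : ∀ α, AEStronglyMeasurable (f α) ((hm m).restrict D) := by
    intro α
    have h2 : Measurable fun v : V m => Ψ (mt v) := (hΨ.cont.comp egc_cmt).measurable
    have h3 : Measurable fun z : V m => Ψ (kk r (mt z) (cR α) g) := h2.comp (egc_kk r (cR α) g)
    have h4 : AEStronglyMeasurable (fun z : V m => F (mt z) (ac N α x))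
        ((hm m).restrict {z : V m | (mt z).det ≠ 0}) :=
      ((hF.cont (ac N α x)).comp egc_cmt.continuousOn (fun z hz => hz)).aestronglyMeasurable hopen
    exact h3.aestronglyMeasurable.mul (h4.mono_measure (Measure.restrict_mono hsub le_rfl))
  have hfin : ∑' α, ∫⁻ z in D, ‖f α z‖ₑ ∂(hm m) ≠ ⊤ := by
    rw [← lintegral_tsum fun α => (hmeas α).enorm]
    refine ne_of_lt (lt_of_le_of_lt (le_of_eq ?_) hab)
    refine lintegral_congr fun z => tsum_congr fun α => ?_
    rw [ofReal_norm]
  set f0 : ZM m → V m → ℂ := fun α z => if α.det = 0 then 0 else f α z with hf0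
  set f1 : ZM m → V m → ℂ := fun α z => if α.det = 0 then f α z else 0 with hf1
  have key : ∀ (u : ZM m → V m → ℂ), (∀ α, u α = f α ∨ u α = 0) →
      (∫ z in D, ∑' α, u α z ∂(hm m) = ∑' α, ∫ z in D, u α z ∂(hm m)) ∧
      Summable fun α => ∫ z in D, u α z ∂(hm m) := by
    intro u hu
    have h1 : ∀ α, AEStronglyMeasurable (u α) ((hm m).restrict D) := by
      intro α
      rcases hu α with h | h <;> rw [h]
      · exact hmeas α
      · exact aestronglyMeasurable_const
    have hle : ∀ α, ∫⁻ z in D, ‖u α z‖ₑ ∂(hm m) ≤ ∫⁻ z in D, ‖f α z‖ₑ ∂(hm m) := by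
      intro α
      rcases hu α with h | h <;> rw [h]
      simp
    have h2 : ∑' α, ∫⁻ z in D, ‖u α z‖ₑ ∂(hm m) ≠ ⊤ :=
      ne_top_of_le_ne_top hfin (ENNReal.tsum_le_tsum hle)
    refine ⟨integral_tsum h1 h2, ?_⟩
    refine Summable.of_norm_bounded (ENNReal.summable_toReal h2) fun α => ?_
    refine (norm_integral_le_lintegral_norm _).trans (le_of_eq ?_)
    congr 1
    refine lintegral_congr fun z => ?_
    rw [ofReal_norm]
  obtain ⟨e, hes⟩ := key f fun α => Or.inl rfl
  obtain ⟨e0, hs0⟩ := key f0 fun α => by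
    by_cases h : α.det = 0
    · right
      funext z
      simp only [hf0, if_pos h, Pi.zero_apply]
    · left
      funext z
      simp only [hf0, if_neg h]
  obtain ⟨e1, hs1⟩ := key f1 fun α => by
    by_cases h : α.det = 0
    · left
      funext z
      simp only [hf1, if_pos h]
    · right
      funext z
      simp only [hf1, if_neg h, Pi.zero_apply]
  have hsum : ∀ α, ∫ z in D, f α z ∂(hm m) =
      ∫ z in D, f0 α z ∂(hm m) + ∫ z in D, f1 α z ∂(hm m) := by
    intro α
    by_cases h : α.det = 0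
    · simp only [hf0, hf1, if_pos h, integral_zero, zero_add]
    · simp only [hf0, hf1, if_neg h, integral_zero, add_zero]
  unfold opAu
  calc ∫ z in D, ∑' α : ZM m, Ψ (kk r (mt z) (cR α) g) * F (mt z) (ac N α x) ∂(hm m)
      = ∑' α, ∫ z in D, f α z ∂(hm m) := e
    _ = ∑' α, (∫ z in D, f0 α z ∂(hm m) + ∫ z in D, f1 α z ∂(hm m)) := tsum_congr hsum
    _ = ∑' α, ∫ z in D, f0 α z ∂(hm m) + ∑' α, ∫ z in D, f1 α z ∂(hm m) := hs0.tsum_add hs1
    _ = ∫ z in D, ∑' α, f0 α z ∂(hm m) + ∫ z in D, ∑' α, f1 α z ∂(hm m) := by rw [e0, e1]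
    _ = thF 1 Ψ mu lam r * F g x + 0 := congrArg₂ (· + ·) hns hsg
    _ = thF 1 Ψ mu lam r * F g x := add_zero _

end Pool.Agent.H57.GU
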